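import Pool.Agent.Lib.MP_241ca8_al.Univ

/-!
# MP_241ca8_al : the catchment set of limit roots is not closed

The definitions (`CoxeterDatum`, `B`, `W`, `IsLorentzian`, `limitRoots`, `limitDirections`,
`catchment`, the topology of the projective space) are in `Pool.Agent.Lib.MP_241ca8_al.Defs`.

Idea of the proof. Let `W` preserve a lattice `L`. If `x` in `L` is not zero and `w_n x` are
different vectors with `c_n w_n x → y`, then `c_n → 0`, so `B(y,y) = 0`. For another `x'` in `L` some
vector `x''` of the orbit of `x'` (which spans `V`) has unbounded images `w_n x''`, and a limit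
direction `z` of them is light-like and orthogonal to `y`, so it is equal to `y`. Hence all the
nonzero vectors of `L`, and the roots, have the same limit directions, and these are light-like. On
the other hand there are roots `α`, `β` with `|B(α,β)| > 1` (if not, then `W` would be finite), and
for `g = s_α s_β`, `k` the light-like eigenvector of `g` in the span of `α`, `β` which is contracted,
and `y ≠ 0` orthogonal to `α` and `β`, the points `g^n (y + k)` tend to `y`, which is space-like.
-/

set_option autoImplicit false

namespace Pool.Agent.Results.MP_241ca8_al.EveryRank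

open Pool.Agent.Lib.MP_241ca8_al
open scoped LinearAlgebra.Projectivization

/-- The Coxeter system is irreducible: any two `s`, `t` in `S` are connected by a chain of elements
of `S` such that consecutive elements `a`, `b` have `B(α_a,α_b) ≠ 0` (that is, they are equal or
`m_ab ≠ 2`). -/
def IsIrreducible {S : Type} [Fintype S] [DecidableEq S] (D : CoxeterDatum S) : Prop :=
  ∀ s t, Relation.ReflTransGen (fun a b => D.K a b ≠ 0) s t

/-- `L` is a lattice of `V` (a discrete subgroup which spans `V`) which is preserved by `W`. -/
structure IsInvariantLattice {S : Type} [Fintype S] [DecidableEq S] (D : CoxeterDatum S)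
    (L : AddSubgroup (S → ℝ)) : Prop where
  discrete : DiscreteTopology L
  span : Submodule.span ℝ (L : Set (S → ℝ)) = ⊤
  invariant : ∀ w ∈ D.W, ∀ x ∈ L, w x ∈ L

/-- **Main result.** (1) For every `n ≥ 3` the universal Coxeter system of rank `n` (all labels `∞`,
`B(α_s,α_t) = -1` for `s ≠ t`) is Lorentzian, and its catchment set of limit roots `F_Φ` is dense in
`ℙV` and is not closed. (2) More generally, for every irreducible Lorentzian Coxeter system of rank
at least `3` such that `W` preserves a lattice `L` of `V`, the catchment set `F_Φ` contains the
classes of all the nonzero vectors of `L`, is dense in `ℙV`, and is not closed. -/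
theorem result :
    (∀ n : ℕ, 3 ≤ n → ∃ D : CoxeterDatum (Fin n),
      (∀ s t, s ≠ t → D.M s t = 0 ∧ D.K s t = -1) ∧ D.IsLorentzian ∧
        Dense D.catchment ∧ ¬ IsClosed D.catchment) ∧
    ∀ (S : Type) [Fintype S] [DecidableEq S] (D : CoxeterDatum S), D.IsLorentzian →
      IsIrreducible D → 3 ≤ Fintype.card S → ∀ L : AddSubgroup (S → ℝ), IsInvariantLattice D L →
        (∀ (x : S → ℝ) (hx : x ≠ 0), x ∈ L → Projectivization.mk ℝ x hx ∈ D.catchment) ∧
          Dense D.catchment ∧ ¬ IsClosed D.catchment := by
  constructor
  · intro n hn
    obtain ⟨h1, h2, h3⟩ := CoxeterDatum.univ_main n hn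
    refine ⟨CoxeterDatum.univ n, ?_, h1, h2, h3⟩
    intro s t hst
    constructor
    · show (Matrix.of fun s t => if s = t then 1 else 0) s t = 0
      simp [hst]
    · show (Matrix.of fun s t => if s = t then 1 else -1) s t = -1
      simp [hst]
  · intro S _ _ D hL hirr h3 L h
    have := h.discrete
    exact (CoxeterDatum.isCryst_of_discrete L h.span h.invariant).main hL hirr h3

end Pool.Agent.Results.MP_241ca8_al.EveryRank
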